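import Pool.Agent.H17.BO.TargetsD

/-!
# (BZ) zeros of a binary form
-/

set_option autoImplicit false

namespace Pool.Agent.H86.BO

open MvPolynomial SC Pool.Agent.H27.LV Pool.Agent.H17.VG Pool.Agent.H17.BO

/-- values of a form at a multiple of a point -/
private theorem hom_mul {K : Type} [Field K] {m d : ℕ} {F : MvPolynomial (Fin m) K}
    (hF : F.IsHomogeneous d) (c : K) (x : Fin m → K) :
    eval (fun l => c * x l) F = c ^ d * eval x F := by
  rw [MvPolynomial.eval_eq', MvPolynomial.eval_eq', Finset.mul_sum]
  apply Finset.sum_congr rfl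
  intro s hs
  have h1 : s.degree = d := by
    have := hF (MvPolynomial.mem_support_iff.1 hs)
    rw [← this, Finsupp.degree_eq_weight_one]
    rfl
  have h2 : ∏ i, (c * x i) ^ s i = c ^ d * ∏ i, x i ^ s i := by
    simp_rw [mul_pow]
    rw [Finset.prod_mul_distrib, Finset.prod_pow_eq_pow_sum, ← h1]
    congr 2
    rw [Finsupp.degree_eq_sum]
  rw [h2]
  ring

section

variable {k : Type} [Field k] {n d : ℕ} (F : MvPolynomial (Fin (n + 1)) k)
  (A B C : Fin (n + 1) → k)

/-- the value at the point with the parameters `u, v` -/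
private noncomputable def EV (Ω : Type) [Field Ω] [Algebra k Ω] (u v : Ω) : Ω :=
  eval (fun l => u ^ 2 * algebraMap k Ω (A l) + u * v * algebraMap k Ω (B l) +
      v ^ 2 * algebraMap k Ω (C l)) (MvPolynomial.map (algebraMap k Ω) F)

/-- the polynomial -/
private noncomputable def WW : Polynomial k :=
  MvPolynomial.aeval (fun l => Polynomial.C (A l) + Polynomial.C (B l) * Polynomial.X +
    Polynomial.C (C l) * Polynomial.X ^ 2) F

private theorem aeval_WW (Ω : Type) [Field Ω] [Algebra k Ω] (τ : Ω) :
    Polynomial.aeval τ (WW F A B C) = EV F A B C Ω 1 τ := by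
  unfold WW EV
  rw [MvPolynomial.comp_aeval_apply, MvPolynomial.eval_map, MvPolynomial.aeval_def]
  congr 1
  funext l
  simp only [map_add, map_mul, map_pow, Polynomial.aeval_C, Polynomial.aeval_X]
  ring

variable {F}

private theorem EV_smul (hF : F.IsHomogeneous d) (Ω : Type) [Field Ω] [Algebra k Ω] (c u v : Ω) :
    EV F A B C Ω (c * u) (c * v) = c ^ (2 * d) * EV F A B C Ω u v := by
  unfold EV
  rw [pow_mul, ← hom_mul (hF.map (algebraMap k Ω))]
  congr 1
  congr 1
  funext l
  ring

private theorem EV_div (hF : F.IsHomogeneous d) (Ω : Type) [Field Ω] [Algebra k Ω] (u v : Ω)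
    (hu : u ≠ 0) (h : EV F A B C Ω u v = 0) : Polynomial.aeval (v / u) (WW F A B C) = 0 := by
  have h1 := EV_smul A B C hF Ω u 1 (v / u)
  rw [mul_one, mul_div_cancel₀ v hu, h] at h1
  rw [aeval_WW]
  rcases mul_eq_zero.1 h1.symm with h2 | h2
  · exact absurd h2 (pow_ne_zero _ hu)
  · exact h2

private theorem EV_zero (hF : F.IsHomogeneous d) (Ω : Type) [Field Ω] [Algebra k Ω] (v : Ω) :
    EV F A B C Ω 0 v = v ^ (2 * d) * algebraMap k Ω (eval C F) := by
  have h1 := EV_smul A B C hF Ω v 0 1
  rw [mul_zero, mul_one] at h1
  rw [h1]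
  congr 1
  unfold EV
  have h2 : (fun l => (0 : Ω) ^ 2 * algebraMap k Ω (A l) + 0 * 1 * algebraMap k Ω (B l) +
      1 ^ 2 * algebraMap k Ω (C l)) = fun l => algebraMap k Ω (C l) := by
    funext l
    ring
  rw [h2, MvPolynomial.eval_map]
  exact (MvPolynomial.eval₂_comp (algebraMap k Ω) C F).symm

/-- the value over `k` -/
private theorem EV_self (u v : k) : EV F A B C k u v =
    eval (fun l => u ^ 2 * A l + u * v * B l + v ^ 2 * C l) F := by
  unfold EV
  simp only [Algebra.algebraMap_self, RingHom.id_apply, MvPolynomial.map_id]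

end

theorem pf_BZ : T_BZ := by
  classical
  intro k _ _ _ n d F hF A B C
  set W := WW F A B C with hW
  by_cases hW0 : W = 0
  · right
    left
    have h1 : ∀ u v : k, u ≠ 0 → EV F A B C k u v = 0 := by
      intro u v hu
      have h2 := EV_smul A B C hF k u 1 (v / u)
      rw [mul_one, mul_div_cancel₀ v hu, ← aeval_WW, ← hW, hW0, map_zero, mul_zero] at h2
      exact h2
    -- the value at infinity
    set G : Polynomial k := WW F C B A with hG
    have h3 : ∀ t : k, t ≠ 0 → G.eval t = 0 := by
      intro t ht
      have h4 : G.eval t = EV F A B C k t 1 := by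
        have h5 := aeval_WW F C B A k t
        rw [Polynomial.coe_aeval_eq_eval] at h5
        rw [hG, h5, EV_self, EV_self]
        congr 1
        congr 1
        funext l
        ring
      rw [h4, h1 t 1 ht]
    have h6 : G = 0 := by
      apply Polynomial.eq_zero_of_infinite_isRoot
      refine Set.Infinite.mono (s := {t : k | t ≠ 0}) (fun t ht => h3 t ht) ?_
      have : {t : k | t ≠ 0} = ({0} : Set k)ᶜ := by
        ext t
        simp
      rw [this]
      exact (Set.finite_singleton (0 : k)).infinite_compl
    have h7 : eval C F = 0 := by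
      have h8 := aeval_WW F C B A k 0
      rw [← hG, h6, map_zero, EV_self] at h8
      rw [h8]
      congr 1
      congr 1
      funext l
      ring
    intro s t
    rw [← EV_self]
    by_cases hs : s = 0
    · rw [hs, EV_zero A B C hF, h7, map_zero, mul_zero]
    · exact h1 s t hs
  -- the roots
  have hroot : ∀ t : k, t ∈ W.roots.toFinset ↔ EV F A B C k 1 t = 0 := by
    intro t
    rw [Multiset.mem_toFinset, Polynomial.mem_roots hW0, Polynomial.IsRoot,
      ← Polynomial.coe_aeval_eq_eval, hW, aeval_WW]
  have hext : ∀ (Ω : Type) [Field Ω] [Algebra k Ω] (u v : Ω), u ≠ 0 → EV F A B C Ω u v = 0 →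
      ∃ t ∈ W.roots.toFinset, v = u * algebraMap k Ω t := by
    intro Ω _ _ u v hu h
    have h1 := EV_div A B C hF Ω u v hu h
    have halg : IsAlgebraic k (v / u) := ⟨W, hW0, h1⟩
    have h2 := IsAlgClosed.degree_eq_one_of_irreducible k (minpoly.irreducible halg.isIntegral)
    obtain ⟨t, ht⟩ := minpoly.mem_range_of_degree_eq_one k (v / u) h2
    refine ⟨t, ?_, ?_⟩
    · rw [Multiset.mem_toFinset, Polynomial.mem_roots hW0, Polynomial.IsRoot]
      rw [← hW, ← ht, Polynomial.aeval_algebraMap_apply] at h1
      have h3 := (map_eq_zero (algebraMap k Ω)).1 h1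
      rwa [Polynomial.coe_aeval_eq_eval] at h3
    · rw [ht, mul_div_cancel₀ v hu]
  set R := W.roots.toFinset with hR
  by_cases hC : eval C F = 0
  · -- the point at infinity is a zero
    by_cases hc : 2 ≤ R.card
    · left
      obtain ⟨a, ha, b, hb, hab⟩ := Finset.one_lt_card.1 (show 1 < R.card by omega)
      refine ⟨![1, 1, 0], ![a, b, 1], ?_, ?_⟩
      · intro i j hij
        fin_cases i <;> fin_cases j <;> simp at hij ⊢
        · exact fun h => hab h.symm
        · exact hab
      · intro i
        rw [← EV_self]
        fin_cases i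
        · exact (hroot a).1 ha
        · exact (hroot b).1 hb
        · change EV F A B C k 0 1 = 0
          rw [EV_zero A B C hF, hC, map_zero, mul_zero]
    · right
      right
      obtain ⟨a, ha⟩ : ∃ a : k, ∀ t ∈ R, t = a := by
        rcases R.eq_empty_or_nonempty with h | ⟨a, ha⟩
        · exact ⟨0, by simp [h]⟩
        · refine ⟨a, fun t ht => ?_⟩
          exact Finset.card_le_one.1 (by omega) t ht a ha
      refine ⟨![1, 0], ![a, 1], ?_, ?_⟩
      · intro i
        fin_cases i <;> simp
      · intro Ω _ _ u v h
        by_cases hu : u = 0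
        · refine ⟨1, ?_⟩
          simp [hu]
        · obtain ⟨t, ht, htv⟩ := hext Ω u v hu h
          refine ⟨0, ?_⟩
          rw [ha t ht] at htv
          simp [htv]
  · -- the point at infinity is not a zero
    have hinf : ∀ (Ω : Type) [Field Ω] [Algebra k Ω] (v : Ω), EV F A B C Ω 0 v = 0 → v = 0 := by
      intro Ω _ _ v h
      rw [EV_zero A B C hF] at h
      rcases mul_eq_zero.1 h with h1 | h1
      · by_contra hv
        exact pow_ne_zero _ hv h1
      · exact absurd ((map_eq_zero (algebraMap k Ω)).1 h1) hC
    by_cases hc : 3 ≤ R.card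
    · left
      obtain ⟨a, ha, b, hb, c, hcc, hab, hac, hbc⟩ := Finset.two_lt_card.1
        (show 2 < R.card by omega)
      refine ⟨![1, 1, 1], ![a, b, c], ?_, ?_⟩
      · intro i j hij
        fin_cases i <;> fin_cases j <;> simp at hij ⊢
        · exact fun h => hab h.symm
        · exact fun h => hac h.symm
        · exact hab
        · exact fun h => hbc h.symm
        · exact hac
        · exact hbc
      · intro i
        rw [← EV_self]
        fin_cases i
        · exact (hroot a).1 ha
        · exact (hroot b).1 hb
        · exact (hroot c).1 hcc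
    · right
      right
      obtain ⟨a, b, hab⟩ : ∃ a b : k, ∀ t ∈ R, t = a ∨ t = b := by
        rcases R.eq_empty_or_nonempty with h | ⟨a, ha⟩
        · exact ⟨0, 0, by simp [h]⟩
        · rcases (R.erase a).eq_empty_or_nonempty with h | ⟨b, hb⟩
          · refine ⟨a, a, fun t ht => ?_⟩
            by_contra hta
            push Not at hta
            have : t ∈ R.erase a := Finset.mem_erase.2 ⟨hta.1, ht⟩
            rw [h] at this
            simp at this
          · refine ⟨a, b, fun t ht => ?_⟩
            by_contra hta
            push Not at hta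
            have h1 : t ∈ R.erase a := Finset.mem_erase.2 ⟨hta.1, ht⟩
            have h2 : (R.erase a).card ≤ 1 := by
              rw [Finset.card_erase_of_mem ha]
              omega
            exact hta.2 (Finset.card_le_one.1 h2 t h1 b hb)
      refine ⟨![1, 1], ![a, b], ?_, ?_⟩
      · intro i
        fin_cases i <;> simp
      · intro Ω _ _ u v h
        by_cases hu : u = 0
        · refine ⟨0, ?_⟩
          subst hu
          rw [hinf Ω v h]
          simp
        · obtain ⟨t, ht, htv⟩ := hext Ω u v hu h
          rcases hab t ht with h1 | h1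
          · refine ⟨0, ?_⟩
            rw [h1] at htv
            simp [htv]
          · refine ⟨1, ?_⟩
            rw [h1] at htv
            simp [htv]

end Pool.Agent.H86.BO
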