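import Pool.Agent.H17.BO.TargetsD

/-!
# (KL3) three points
-/

set_option autoImplicit false

namespace Pool.Agent.H86.BO

open MvPolynomial SC Pool.Agent.H27.LV Pool.Agent.H17.VG Pool.Agent.H17.BO

theorem pf_KL3 : T_KL3 := by
  intro k k' _ _ _ _ halg n F P q y hdet hq hF
  let S : Set k' := Set.range fun p : Fin 3 × Fin 3 => y p.1 p.2
  have hSf : S.Finite := Set.finite_range _
  have hfd : FiniteDimensional k (IntermediateField.adjoin k S) :=
    IntermediateField.finiteDimensional_adjoin (fun z _ => (halg z).isIntegral)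
  let E := IntermediateField.adjoin k S
  let pb := Field.powerBasisOfFiniteOfSeparable k E
  let α : k' := (pb.gen : k')
  have hval : ∀ f : Polynomial k, ((Polynomial.aeval pb.gen f : E) : k') =
      Polynomial.aeval α f := by
    intro f
    exact (Polynomial.aeval_algebraMap_apply k' pb.gen f).symm
  have hex : ∀ z : E, ∃ f : Polynomial k, (z : k') = Polynomial.aeval α f := by
    intro z
    obtain ⟨f, hf⟩ := pb.exists_eq_aeval' z
    exact ⟨f, by rw [← hval, ← hf]⟩
  have hy : ∀ j a, y j a ∈ E := fun j a =>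
    IntermediateField.subset_adjoin k S ⟨(j, a), rfl⟩
  choose Y hY using fun j a => hex ⟨y j a, hy j a⟩
  have hdE : (Matrix.of y).det ∈ E := by
    rw [Matrix.det_fin_three]
    simp only [Matrix.of_apply]
    have h := hy
    exact E.sub_mem (E.add_mem (E.add_mem (E.sub_mem (E.sub_mem
      (E.mul_mem (E.mul_mem (h _ _) (h _ _)) (h _ _))
      (E.mul_mem (E.mul_mem (h _ _) (h _ _)) (h _ _)))
      (E.mul_mem (E.mul_mem (h _ _) (h _ _)) (h _ _)))
      (E.mul_mem (E.mul_mem (h _ _) (h _ _)) (h _ _)))
      (E.mul_mem (E.mul_mem (h _ _) (h _ _)) (h _ _)))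
      (E.mul_mem (E.mul_mem (h _ _) (h _ _)) (h _ _))
  obtain ⟨V, hV⟩ := hex ⟨((Matrix.of y).det)⁻¹, E.inv_mem hdE⟩
  have hint : IsIntegral k α := (halg α).isIntegral
  have hdvd : ∀ G : Polynomial k, Polynomial.aeval α G = 0 → minpoly k α ∣ G :=
    fun G hG => minpoly.dvd k α hG
  refine ⟨minpoly k α, V, Y, minpoly.monic hint, (minpoly.irreducible hint).separable,
    minpoly.natDegree_pos hint, ?_, ?_, ?_⟩
  · intro j
    apply hdvd
    have h := hq j
    unfold bil at h
    simp only [Matrix.map_apply] at h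
    simp only [map_sum, map_mul, Polynomial.aeval_C, ← hY]
    exact h
  · intro j
    apply hdvd
    have h := hF j
    rw [MvPolynomial.eval_map] at h
    rw [MvPolynomial.comp_aeval_apply, MvPolynomial.aeval_def]
    simp only [map_sum, map_mul, Polynomial.aeval_C, ← hY]
    exact h
  · apply hdvd
    have h1 : Polynomial.aeval α (Matrix.of Y).det = (Matrix.of y).det := by
      rw [AlgHom.map_det]
      congr 1
      ext j a
      simp [← hY]
    rw [map_sub, map_mul, map_one, h1, ← hV]
    change (Matrix.of y).det * ((Matrix.of y).det)⁻¹ - 1 = 0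
    rw [mul_inv_cancel₀ hdet, sub_self]

end Pool.Agent.H86.BO
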